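import Pool.Agent.H31.PT.M15
import Pool.Agent.H31.PT.M20

/-!
# Four-arm events are comparable to separated four-arm events; regularity
-/

open MeasureTheory ProbabilityTheory unitInterval

namespace Pool.Agent.H59.EX

open Pool.Agent.H89.Perc Pool.Agent.H61.NC
open Pool.Agent.H29.Sep (BadIn RegA4)

theorem itr_bS_ge (q : I) (s : Src) (d d' : Side) (k : ℕ) : Pr q (Sep s d d' k) ≤ bS q s k := by
  unfold bS
  have h1 : Pr q (Sep s d d' k) ≤ ∑ e' : Side, Pr q (Sep s d e' k) :=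
    Finset.single_le_sum (f := fun e' => Pr q (Sep s d e' k)) (fun _ _ => Pr_nonneg)
      (Finset.mem_univ d')
  refine h1.trans ?_
  exact Finset.single_le_sum (f := fun e => ∑ e' : Side, Pr q (Sep s e e' k))
    (fun _ _ => Finset.sum_nonneg fun _ _ => Pr_nonneg) (Finset.mem_univ d)

/-- Uniform lower bound for finitely many local nonempty events. -/
theorem itr_fin (A : ℕ → Set Config) (hA : ∀ k, ∃ Λ : Finset Edge, LocalOn Λ (A k))
    (c : ℝ) (hc : 0 < c) (W : ℕ) (hne : ∀ k, 1 ≤ k → k < W → (A k).Nonempty) :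
    ∃ M : ℝ, 0 < M ∧ ∀ (k n : ℕ) (q : I), 1 ≤ k → k < W → 1 ≤ n → RSWreg c n q →
      1 ≤ M * Pr q (A k) := by
  obtain ⟨δ, hδ, hden⟩ := density_bound c hc
  choose Λ hΛ using hA
  refine ⟨1 + ∑ k ∈ Finset.range W, (δ ^ (Λ k).card)⁻¹, by positivity, ?_⟩
  intro k n q hk hkW hn hreg
  have h1 := fin_energy (hΛ k) (hne k hk hkW) hδ (hden n q hn hreg)
  have h2 : (δ ^ (Λ k).card)⁻¹ ≤ 1 + ∑ k ∈ Finset.range W, (δ ^ (Λ k).card)⁻¹ := by
    have := Finset.single_le_sum (f := fun k => (δ ^ (Λ k).card)⁻¹) (s := Finset.range W)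
      (fun _ _ => by positivity) (Finset.mem_range.2 hkW)
    linarith
  have h3 : (0 : ℝ) < δ ^ (Λ k).card := by positivity
  calc (1 : ℝ) = (δ ^ (Λ k).card)⁻¹ * δ ^ (Λ k).card := by field_simp
    _ ≤ (1 + ∑ k ∈ Finset.range W, (δ ^ (Λ k).card)⁻¹) * Pr q (A k) :=
      mul_le_mul h2 h1 h3.le (by positivity)

/-- Dyadic (base 4) reduction. -/
theorem itr_base {W R : ℕ} (hW : 1 ≤ W) (hR : W ≤ R) :
    ∃ i m : ℕ, W ≤ m ∧ m < 4 * W ∧ 4 ^ i * m ≤ R ∧ R < 2 * (4 ^ i * m) := by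
  have hpos : R / W ≠ 0 := by
    have := Nat.div_pos hR (by omega)
    omega
  have h1 : 4 ^ Nat.log 4 (R / W) ≤ R / W := Nat.pow_log_le_self 4 hpos
  have h2 : R / W < 4 ^ (Nat.log 4 (R / W) + 1) := Nat.lt_pow_succ_log_self (by norm_num) _
  set i := Nat.log 4 (R / W) with hi
  have h4 : 0 < 4 ^ i := by positivity
  have h3 : W * 4 ^ i ≤ R := by
    have := (Nat.le_div_iff_mul_le (by omega : 0 < W)).1 h1
    linarith [Nat.mul_comm W (4 ^ i)]
  have h5 : R < 4 ^ (i + 1) * W := by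
    rw [Nat.div_lt_iff_lt_mul (by omega)] at h2
    exact h2
  refine ⟨i, R / 4 ^ i, (Nat.le_div_iff_mul_le h4).2 h3, ?_, Nat.mul_div_le R _, ?_⟩
  · rw [Nat.div_lt_iff_lt_mul h4]
    rw [pow_succ] at h5
    nlinarith
  · have h6 : W ≤ R / 4 ^ i := (Nat.le_div_iff_mul_le h4).2 h3
    have h7 : R < 4 ^ i * (R / 4 ^ i) + 4 ^ i := by
      have := Nat.div_add_mod R (4 ^ i)
      have h8 := Nat.mod_lt R h4
      omega
    have h9 : 4 ^ i * 1 ≤ 4 ^ i * (R / 4 ^ i) := Nat.mul_le_mul_left _ (by omega)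
    omega

/-- **Separation.** -/
theorem four_le_sep (hB : BadIn) {s : Src} (hs : ∀ k : ℕ, 1 ≤ k → (Sep s .W .E k).Nonempty)
    (c : ℝ) (hc : 0 < c) : ∃ (C : ℝ) (r₀ : ℕ), 0 < C ∧ ∀ (n r : ℕ) (q : I) (e e' : Side),
      e ≠ e' → r₀ ≤ r → r ≤ n → RSWreg c n q →
      ∃ k : ℕ, 64 * r ≤ k ∧ k ≤ 128 * r ∧ Pr q (Four s r) ≤ C * Pr q (Sep s e e' k) := by
  obtain ⟨C₁, hC₁, hstep⟩ := bS_step c hc 1
  obtain ⟨C₂, hC₂, hreach⟩ := bS_reach c hc 1
  obtain ⟨C, w₀, hC, hout⟩ := out_step hB c (1 / (2 * C₁)) hc (by positivity)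
  obtain ⟨M₀, hM₀, hfin⟩ := itr_fin (fun k => Sep s .W .E (4 * k))
    (fun k => localOn_sep s .W .E (4 * k)) c hc (4 * (w₀ + 1))
    (fun k hk _ => hs (4 * k) (by omega))
  have hMpos : 0 < M₀ + 2 * C := by positivity
  refine ⟨(M₀ + 2 * C) * C₂, 8 * (w₀ + 1), by positivity, ?_⟩
  intro n r q e e' hee hr hrn hreg
  obtain ⟨i, m, hm1, hm2, hm3, hm4⟩ := itr_base (W := w₀ + 1) (R := r / 8) (by omega) (by omega)
  have key : ∀ j : ℕ, j ≤ i → Pr q (Four s (8 * (4 ^ j * m))) ≤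
      (M₀ + 2 * C) * bS q s (4 * (4 ^ j * m)) := by
    intro j
    induction j with
    | zero =>
      intro _
      have h1 : Pr q (Four s (8 * (4 ^ 0 * m))) ≤ 1 := Pr_le_one
      have h2 := hfin m n q (by omega) hm2 (by omega) hreg
      have h3 := itr_bS_ge q s .W .E (4 * m)
      have h4 : 0 ≤ bS q s (4 * m) := Pr_nonneg.trans h3
      simp only [pow_zero, one_mul]
      simp only [pow_zero, one_mul] at h1
      nlinarith [mul_le_mul_of_nonneg_left h3 hM₀.le, mul_nonneg hC.le h4]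
    | succ j ih =>
      intro hj
      have ih' := ih (by omega)
      have hle : 4 ^ (j + 1) * m ≤ 4 ^ i * m :=
        Nat.mul_le_mul_right _ (Nat.pow_le_pow_right (by norm_num) hj)
      have hge : 1 * m ≤ 4 ^ j * m := Nat.mul_le_mul_right _ (Nat.one_le_pow _ _ (by norm_num))
      have e1 : 2 * (4 ^ (j + 1) * m) = 8 * (4 ^ j * m) := by ring
      have e2 : 4 ^ (j + 1) * m = 4 * (4 ^ j * m) := by ring
      have h1 := hout s (4 ^ (j + 1) * m) n q (by omega) (by omega) hreg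
      have h2 := hstep s (4 ^ (j + 1) * m) n q (by omega) (by omega) hreg
      rw [e1] at h1
      have h3 : 0 ≤ bS q s (4 * (4 ^ (j + 1) * m)) :=
        Pr_nonneg.trans (itr_bS_ge q s .W .E _)
      rw [← e2] at ih'
      have h4 : 1 / (2 * C₁) * Pr q (Four s (8 * (4 ^ j * m))) ≤
          (M₀ + 2 * C) / 2 * bS q s (4 * (4 ^ (j + 1) * m)) := by
        calc 1 / (2 * C₁) * Pr q (Four s (8 * (4 ^ j * m)))
            ≤ 1 / (2 * C₁) * ((M₀ + 2 * C) * (C₁ * bS q s (4 * (4 ^ (j + 1) * m)))) := by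
              refine mul_le_mul_of_nonneg_left (ih'.trans ?_) (by positivity)
              exact mul_le_mul_of_nonneg_left h2 hMpos.le
          _ = (M₀ + 2 * C) / 2 * bS q s (4 * (4 ^ (j + 1) * m)) := by
              field_simp
      nlinarith [mul_nonneg hM₀.le h3]
  have h1 := key i le_rfl
  have h2 : Pr q (Four s r) ≤ Pr q (Four s (8 * (4 ^ i * m))) :=
    Pr_mono (four_mono' (by omega) (by omega))
  have h3 := hreach s (4 * (4 ^ i * m)) n q e e' hee (by omega) (by omega) hreg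
  refine ⟨256 * (4 * (4 ^ i * m)), by omega, by omega, ?_⟩
  calc Pr q (Four s r) ≤ (M₀ + 2 * C) * bS q s (4 * (4 ^ i * m)) := h2.trans h1
    _ ≤ (M₀ + 2 * C) * (C₂ * Pr q (Sep s e e' (256 * (4 * (4 ^ i * m))))) :=
      mul_le_mul_of_nonneg_left h3 hMpos.le
    _ = (M₀ + 2 * C) * C₂ * Pr q (Sep s e e' (256 * (4 * (4 ^ i * m)))) := by ring

/-- Regularity of the four-arm probability. -/
theorem regA4 (hB : BadIn) : RegA4 := by
  intro c hc
  obtain ⟨C, r₀, hC, h⟩ := four_le_sep hB (s := sE false) (fun k hk => sep_sE_nonempty false hk) c hc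
  obtain ⟨M, hM, hfin⟩ := itr_fin (fun r => Four (sE false) (4 * r))
    (fun r => localOn_four (sE false) (4 * r)) c hc r₀
    (fun r hr _ => ((sep_sE_nonempty false hr).mono (sep_sub_four hr)).mono
      (four_mono' (by omega) (by omega)))
  refine ⟨C + M, by positivity, ?_⟩
  intro n r q hr hrn hreg
  rw [a4_eq_four false, a4_eq_four false]
  have h0 : 0 ≤ Pr q (Four (sE false) (4 * r)) := Pr_nonneg
  rcases lt_or_ge r r₀ with hlt | hge
  · have h1 := hfin r n q hr hlt (by omega) hreg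
    have h2 : Pr q (Four (sE false) r) ≤ 1 := Pr_le_one
    nlinarith [mul_nonneg hC.le h0]
  · obtain ⟨k, hk1, hk2, hk⟩ := h n r q .W .E (by decide) hge (by omega) hreg
    have h1 : Pr q (Sep (sE false) .W .E k) ≤ Pr q (Four (sE false) (4 * r)) :=
      Pr_mono ((sep_sub_four (by omega)).trans (four_mono' (by omega) (by omega)))
    nlinarith [mul_nonneg hM.le h0, mul_le_mul_of_nonneg_left h1 hC.le]

end Pool.Agent.H59.EX
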